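import Mathlib
import Pool.Agent.X119.SqSize2

set_option autoImplicit false

namespace Pool.Agent.Results.MP_bf7c2b_nt.SharpForFour

open Polynomial Finset
open Pool.Agent.X119.SqSize

/-- The conjugates of `α`: the complex roots of its minimal polynomial over `ℚ`. -/
noncomputable def conjugates (α : ℂ) : Finset ℂ := ((minpoly ℚ α).aroots ℂ).toFinset

/-- The real conjugates. -/
noncomputable def realConjugates (α : ℂ) : Finset ℂ := {z ∈ conjugates α | z.im = 0}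

/-- One conjugate from each pair of non-real conjugates: the one in the upper half plane. -/
noncomputable def upperConjugates (α : ℂ) : Finset ℂ := {z ∈ conjugates α | 0 < z.im}

/-- The absolute square size. -/
noncomputable def sqSize (α : ℂ) : ℝ :=
  ∑ z ∈ realConjugates α, z.re ^ 2 + ∑ z ∈ upperConjugates α, ‖z‖ ^ 2

/-- The lower bound `n 2^{s/n-1}` is sharp for `s` real conjugates. -/
def SharpFor (s : ℕ) : Prop :=
  ∀ ε : ℝ, 0 < ε → ∃ α : ℂ, α ≠ 0 ∧ IsIntegral ℤ α ∧ 2 ≤ (minpoly ℚ α).natDegree ∧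
    (realConjugates α).card = s ∧
    sqSize α < (minpoly ℚ α).natDegree * (2:ℝ) ^ ((s:ℝ) / (minpoly ℚ α).natDegree - 1) + ε

/-! ### Estimates -/

lemma two_pow_ge (n : ℕ) (hn : 27 ≤ n) : n ^ 4 ≤ 2 ^ n := by
  induction n, hn using Nat.le_induction with
  | base => norm_num
  | succ n hn ih =>
    have h1 : (n + 1) ^ 4 ≤ 2 * n ^ 4 := by
      have h2 : 27 * n ^ 3 ≤ n ^ 4 := by
        calc 27 * n ^ 3 ≤ n * n ^ 3 := Nat.mul_le_mul_right _ hn
          _ = n ^ 4 := by ring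
      have h3 : n ^ 2 ≤ n ^ 3 := Nat.pow_le_pow_right (by omega) (by norm_num)
      have h4 : n ≤ n ^ 3 := by
        calc n = n ^ 1 := (pow_one n).symm
          _ ≤ n ^ 3 := Nat.pow_le_pow_right (by omega) (by norm_num)
      have h5 : 1 ≤ n ^ 3 := Nat.one_le_pow _ _ (by omega)
      have e : (n + 1) ^ 4 = n ^ 4 + 4 * n ^ 3 + 6 * n ^ 2 + 4 * n + 1 := by ring
      rw [e]; omega
    calc (n + 1) ^ 4 ≤ 2 * n ^ 4 := h1
      _ ≤ 2 * 2 ^ n := by omega
      _ = 2 ^ (n + 1) := by rw [pow_succ]; ring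

section est
variable (B : ℕ) (hB : 27 ≤ B)
include hB

lemma Bpos : (0:ℝ) < B := by exact_mod_cast (by omega : 0 < B)

lemma B27 : (27:ℝ) ≤ B := by exact_mod_cast hB

lemma half_pow : ((1:ℝ)/2) ^ B ≤ 1 / (B:ℝ) ^ 4 := by
  have h := two_pow_ge B hB
  have h' : (B:ℝ) ^ 4 ≤ 2 ^ B := by exact_mod_cast h
  have hB0 := Bpos B hB
  rw [one_div_pow]
  exact one_div_le_one_div_of_le (by positivity) h'

/-- `(1+c)^k ≥ 4 + 4/c` for `c = B^{-2}`, `k = B^3` -/
lemma est_up : 4 + 4 / (1 / (B:ℝ) ^ 2) ≤ (1 + 1 / (B:ℝ) ^ 2) ^ (B ^ 3) := by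
  have hB0 := Bpos B hB
  have hB27 := B27 B hB
  have h1 : (2:ℝ) ≤ (1 + 1 / (B:ℝ) ^ 2) ^ (B ^ 2) := by
    have := one_add_mul_le_pow (show (-2:ℝ) ≤ 1 / (B:ℝ) ^ 2 by
      have : 0 < 1 / (B:ℝ) ^ 2 := by positivity
      linarith) (B ^ 2)
    have e : 1 + ((B ^ 2 : ℕ) : ℝ) * (1 / (B:ℝ) ^ 2) = 2 := by
      push_cast; field_simp; norm_num
    rw [e] at this
    exact this
  have h2 : (2:ℝ) ^ B ≤ (1 + 1 / (B:ℝ) ^ 2) ^ (B ^ 3) := by
    have e : B ^ 3 = B ^ 2 * B := by ring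
    rw [e, pow_mul]
    exact pow_le_pow_left₀ (by norm_num) h1 B
  have h3 : (B:ℝ) ^ 4 ≤ 2 ^ B := by exact_mod_cast two_pow_ge B hB
  have e : 4 + 4 / (1 / (B:ℝ) ^ 2) = 4 + 4 * (B:ℝ) ^ 2 := by field_simp
  rw [e]
  nlinarith [pow_pos hB0 2, pow_pos hB0 3]

lemma est_low : 3 * (1 - 1 / (B:ℝ) ^ 2) ^ (B ^ 3) < (2 * (1 - 1 / (B:ℝ) ^ 2) - 1) ^ 2 := by
  have hB0 := Bpos B hB
  have hB27 := B27 B hB
  have hc : 1 / (B:ℝ) ^ 2 ≤ 1/100 := by
    rw [div_le_div_iff₀ (by positivity) (by norm_num)]; nlinarith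
  have hc0 : 0 < 1 / (B:ℝ) ^ 2 := by positivity
  have h1 : (1 - 1 / (B:ℝ) ^ 2) ^ (B ^ 2) ≤ 1/2 := by
    have h2 : (1 - 1 / (B:ℝ) ^ 2) ^ (B ^ 2) * (1 + 1 / (B:ℝ) ^ 2) ^ (B ^ 2) ≤ 1 := by
      rw [← mul_pow]
      apply pow_le_one₀
      · apply mul_nonneg <;> linarith
      · nlinarith
    have h3 : (2:ℝ) ≤ (1 + 1 / (B:ℝ) ^ 2) ^ (B ^ 2) := by
      have := one_add_mul_le_pow (show (-2:ℝ) ≤ 1 / (B:ℝ) ^ 2 by linarith) (B ^ 2)
      have e : 1 + ((B ^ 2 : ℕ) : ℝ) * (1 / (B:ℝ) ^ 2) = 2 := by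
        push_cast; field_simp; norm_num
      rw [e] at this
      exact this
    have h4 : 0 ≤ (1 - 1 / (B:ℝ) ^ 2) ^ (B ^ 2) := pow_nonneg (by linarith) _
    nlinarith
  have h2 : (1 - 1 / (B:ℝ) ^ 2) ^ (B ^ 3) ≤ (1/2) ^ B := by
    have e : B ^ 3 = B ^ 2 * B := by ring
    rw [e, pow_mul]
    exact pow_le_pow_left₀ (pow_nonneg (by linarith) _) h1 B
  have h3 := half_pow B hB
  have h4 : 1 / (B:ℝ) ^ 4 ≤ 1/100 := by
    rw [div_le_div_iff₀ (by positivity) (by norm_num)]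
    have : (100:ℝ) ≤ (B:ℝ)^2 := by nlinarith
    nlinarith
  nlinarith

lemma est_mid : (3/4 : ℝ) ^ (B ^ 3) ≤ (1 / (B:ℝ) ^ 2) ^ 2 := by
  have hB0 := Bpos B hB
  have h1 : (3/4 : ℝ) ^ (B ^ 3) ≤ (3/4) ^ (3 * B) := by
    apply pow_le_pow_of_le_one (by norm_num) (by norm_num)
    have : 3 ≤ B ^ 2 := by nlinarith
    calc 3 * B ≤ B ^ 2 * B := Nat.mul_le_mul_right _ this
      _ = B ^ 3 := by ring
  have h2 : (3/4 : ℝ) ^ (3 * B) ≤ (1/2) ^ B := by
    rw [pow_mul]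
    exact pow_le_pow_left₀ (by norm_num) (by norm_num) B
  have h3 := half_pow B hB
  have e : (1 / (B:ℝ) ^ 2) ^ 2 = 1 / (B:ℝ) ^ 4 := by
    rw [div_pow, one_pow, ← pow_mul]
  rw [e]
  linarith

end est

/-- a root close to `1/2` -/
lemma near_half (k : ℕ) (hk : 2 ≤ k) (c u : ℝ) (hc : 0 ≤ c) (hck : (3/4 : ℝ) ^ k ≤ c ^ 2) (h0 : 0 < u)
    (h1 : u < 3/4) (hu : (Q ℝ k).eval u = 0) : |2 * u - 1| ≤ c := by
  have hkey := key_eval (S := ℝ) k hk u
  rw [hu, mul_zero] at hkey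
  have h2 : u ^ k ≤ (3/4) ^ k := pow_le_pow_left₀ h0.le h1.le k
  have h3 : u ^ 2 - u + 1 ≤ 1 := by nlinarith
  have h4 : 0 < u ^ 2 - u + 1 := by nlinarith
  have h5 : (2 * u - 1) ^ 2 ≤ c ^ 2 := by
    have h6 : 0 < u ^ k := by positivity
    nlinarith
  exact abs_le_of_sq_le_sq h5 hc

lemma log_ge (t : ℝ) (h1 : -(1/2) ≤ t) : t ≤ Real.log (1 + t) + 2 * t ^ 2 := by
  have h3 : 0 < 1 + t := by linarith
  have h4 := Real.log_le_sub_one_of_pos (inv_pos.mpr h3)
  rw [Real.log_inv] at h4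
  have h5 : 1 - (1 + t)⁻¹ = t / (1 + t) := by field_simp; ring
  have h6 : t - 2 * t ^ 2 ≤ t / (1 + t) := by
    rw [le_div_iff₀ h3]; nlinarith [mul_nonneg (sq_nonneg t) (by linarith : 0 ≤ 1 + 2 * t)]
  linarith

/-! ### The sum over the roots -/

section main
variable (b : ℕ) (hb : 3 ≤ b)
include hb

/-- The main numerical estimate. -/
lemma sum_est : ∃ u1 u2 : ℝ, 0 < u1 ∧ u1 < 1/2 ∧ 1/2 < u2 ∧ u2 < 3/4 ∧
    (u1 : ℂ) ∈ RQ (3 ^ (3 * b)) ∧ (u2 : ℂ) ∈ RQ (3 ^ (3 * b)) ∧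
    (∀ u : ℝ, 0 ≤ u → (u : ℂ) ∈ RQ (3 ^ (3 * b)) → u = u1 ∨ u = u2) ∧
    ∑ z ∈ RQ (3 ^ (3 * b)) \ {(u1 : ℂ), (u2 : ℂ)}, ‖z‖ + 2 * (u1 + u2) ≤
      (3 ^ (3 * b) : ℝ) + 1 + 2 * Real.log 2 + 10 / (3:ℝ) ^ b := by
  classical
  have ha : 2 ≤ 3 * b := by omega
  set k := 3 ^ (3 * b) with hk
  have hk9 : 9 ≤ k := (pow3_facts (3 * b) ha).2.1
  set B : ℕ := 3 ^ b with hBdef
  have hB : 27 ≤ B := by
    calc 27 = 3 ^ 3 := by norm_num
      _ ≤ 3 ^ b := Nat.pow_le_pow_right (by norm_num) hb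
  have hkB : k = B ^ 3 := by rw [hk, hBdef, ← pow_mul]; congr 1; ring
  have hB0 := Bpos B hB
  have hB27 := B27 B hB
  set c : ℝ := 1 / (B:ℝ) ^ 2 with hc
  have hc0 : 0 < c := by rw [hc]; positivity
  have hc1 : c ≤ 1/100 := by
    rw [hc, div_le_div_iff₀ (by positivity) (by norm_num)]; nlinarith
  have hup := est_up B hB
  have hlow := est_low B hB
  have hmid := est_mid B hB
  rw [← hkB] at hup hlow hmid
  rw [← hc] at hup hlow hmid
  obtain ⟨u1, u2, h1, h1', h2, h2', hu1, hu2⟩ := exists_two k hk9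
  have hm : ∀ u : ℝ, (Q ℝ k).eval u = 0 → (u : ℂ) ∈ RQ k := by
    intro u hu
    rw [mem_RQ k (by omega), real_root, hu]; simp
  have hm1 := hm u1 hu1
  have hm2 := hm u2 hu2
  have hsmall := small_roots (3 * b) ha (1 - c) (by linarith) (by linarith) hlow u1 u2 h1 h1' h2 h2'
    hu1 hu2
  have hlarge := large_roots k (by omega) c hc0 hup
  refine ⟨u1, u2, h1, h1', h2, h2', hm1, hm2, ?_, ?_⟩
  · intro u hu0 hu
    have hu' : (Q ℝ k).eval u = 0 := by
      have := (mem_RQ k (by omega) _).mp hu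
      rw [real_root] at this
      exact_mod_cast this
    have hlt : u < 3/4 := by
      by_contra hcon
      exact no_root_ge k hk9 u (not_lt.mp hcon) hu'
    have := hsmall u hu (by rw [Complex.norm_real, Real.norm_of_nonneg hu0]; linarith)
    rcases this with h | h
    · left; exact_mod_cast h
    · right; exact_mod_cast h
  · set O := RQ k \ {(u1 : ℂ), (u2 : ℂ)} with hO
    have hne12 : (u1 : ℂ) ≠ u2 := by
      intro h; have : u1 = u2 := by exact_mod_cast h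
      linarith
    have hsub : ({(u1 : ℂ), (u2 : ℂ)} : Finset ℂ) ⊆ RQ k := by
      intro z hz
      simp only [mem_insert, mem_singleton] at hz
      rcases hz with rfl | rfl
      · exact hm1
      · exact hm2
    have hcardO : (O.card : ℝ) = k - 1 := by
      have h3 : O.card = k + 1 - 2 := by
        rw [hO, card_sdiff_of_subset hsub, RQ_card (3 * b) ha, card_pair hne12]
      rw [h3]
      have : k + 1 - 2 = k - 1 := by omega
      rw [this, Nat.cast_sub (by omega)]; simp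
    have hOb : ∀ z ∈ O, 1 - c ≤ ‖z‖ ∧ ‖z‖ ≤ 1 + c := by
      intro z hz
      rw [hO, mem_sdiff] at hz
      refine ⟨?_, hlarge z hz.1⟩
      by_contra hcon
      push Not at hcon
      have := hsmall z hz.1 hcon
      apply hz.2
      simp only [mem_insert, mem_singleton]
      exact this
    have hprod : u1 * u2 * ∏ z ∈ O, ‖z‖ = 1 := by
      have h3 := RQ_prod (3 * b) ha
      rw [← hk, ← prod_sdiff hsub, prod_pair hne12, Complex.norm_real, Complex.norm_real,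
        Real.norm_of_nonneg h1.le, Real.norm_of_nonneg (by linarith : 0 ≤ u2)] at h3
      rw [mul_comm]; exact h3
    have hlog : ∑ z ∈ O, Real.log ‖z‖ = -Real.log (u1 * u2) := by
      have h3 : ∑ z ∈ O, Real.log ‖z‖ = Real.log (∏ z ∈ O, ‖z‖) := by
        rw [Real.log_prod]
        intro z hz
        have := (hOb z hz).1
        linarith
      have h4 : ∏ z ∈ O, ‖z‖ = (u1 * u2)⁻¹ := (inv_eq_of_mul_eq_one_right hprod).symm
      rw [h3, h4, Real.log_inv]
    have hterm : ∀ z ∈ O, ‖z‖ ≤ 1 + Real.log ‖z‖ + 2 * c ^ 2 := by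
      intro z hz
      obtain ⟨h3, h4⟩ := hOb z hz
      have h5 := log_ge (‖z‖ - 1) (by linarith)
      have h6 : 1 + (‖z‖ - 1) = ‖z‖ := by ring
      rw [h6] at h5
      have h7 : (‖z‖ - 1) ^ 2 ≤ c ^ 2 := by
        apply sq_le_sq'
        · linarith
        · linarith
      linarith
    have hsum : ∑ z ∈ O, ‖z‖ ≤ (k - 1) + -Real.log (u1 * u2) + (k - 1) * (2 * c ^ 2) := by
      calc ∑ z ∈ O, ‖z‖ ≤ ∑ z ∈ O, (1 + Real.log ‖z‖ + 2 * c ^ 2) := sum_le_sum hterm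
        _ = O.card * 1 + ∑ z ∈ O, Real.log ‖z‖ + O.card * (2 * c ^ 2) := by
            rw [sum_add_distrib, sum_add_distrib, sum_const, sum_const, nsmul_eq_mul, nsmul_eq_mul]
        _ = _ := by rw [hlog, hcardO]; ring
    have n1 := near_half k (by omega) c u1 hc0.le hmid h1 (by linarith) hu1
    have n2 := near_half k (by omega) c u2 hc0.le hmid (by linarith) h2' hu2
    rw [abs_le] at n1 n2
    have hlow1 : (1 - c) / 4 ≤ u1 * u2 := by nlinarith
    have hlog2 : -Real.log (u1 * u2) ≤ 2 * Real.log 2 + 2 * c := by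
      have h3 : Real.log ((1 - c) / 4) ≤ Real.log (u1 * u2) :=
        Real.log_le_log (by linarith) hlow1
      have h4 : Real.log ((1 - c) / 4) = Real.log (1 - c) - 2 * Real.log 2 := by
        rw [Real.log_div (by linarith) (by norm_num)]
        have : Real.log 4 = 2 * Real.log 2 := by
          rw [show (4:ℝ) = 2 ^ 2 by norm_num, Real.log_pow]; norm_num
        rw [this]
      have h5 := log_ge (-c) (by linarith)
      have h6 : 1 + -c = 1 - c := by ring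
      rw [h6] at h5
      nlinarith
    have hkR : (k:ℝ) = (B:ℝ) ^ 3 := by rw [hkB]; push_cast; ring
    have hkc : (k - 1) * (2 * c ^ 2) ≤ 2 / (B:ℝ) := by
      have h3 : (k:ℝ) * (2 * c ^ 2) = 2 / (B:ℝ) := by
        rw [hkR, hc]; field_simp
      have : 0 ≤ 2 * c ^ 2 := by positivity
      nlinarith
    have hcB : c ≤ 1 / (B:ℝ) := by
      rw [hc]
      apply one_div_le_one_div_of_le hB0
      nlinarith
    have hBR : (B:ℝ) = 3 ^ b := by rw [hBdef]; push_cast; rfl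
    have hkR' : (k:ℝ) = 3 ^ (3 * b) := by rw [hk]; push_cast; rfl
    rw [← hkR', ← hBR]
    have e10 : 10 / (B:ℝ) = 2 / B + 8 * (1 / B) := by ring
    rw [e10]
    linarith

end main

/-! ### The algebraic integer -/

lemma mem_conj (α z : ℂ) (hα : IsIntegral ℤ α) :
    z ∈ conjugates α ↔ aeval z (minpoly ℤ α) = 0 := by
  unfold conjugates
  have h1 : minpoly ℚ α = (minpoly ℤ α).map (algebraMap ℤ ℚ) :=
    minpoly.isIntegrallyClosed_eq_field_fractions' ℚ hα
  have hne : minpoly ℚ α ≠ 0 := minpoly.ne_zero hα.tower_top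
  rw [Multiset.mem_toFinset, mem_aroots, and_iff_right hne, h1, aeval_map_algebraMap]

lemma aeval_expand_Q (k : ℕ) (z : ℂ) :
    aeval z (expand ℤ 2 (Q ℤ k)) = (Q ℂ k).eval (z ^ 2) := by
  rw [expand_aeval, ← Q_map (Int.castRingHom ℂ) k, eval_map]
  rfl

theorem sharp_four : SharpFor 4 := by
  classical
  intro ε hε
  -- choose `b`
  obtain ⟨b0, hb0⟩ := exists_pow_lt_of_lt_one (show (0:ℝ) < ε / 10 by positivity)
    (show (1/3 : ℝ) < 1 by norm_num)
  set b := b0 + 3 with hb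
  have hb3 : 3 ≤ b := by omega
  have hbε : 10 / (3:ℝ) ^ b < ε := by
    have h1 : (1/3 : ℝ) ^ b ≤ (1/3) ^ b0 := pow_le_pow_of_le_one (by norm_num) (by norm_num) (by omega)
    have h2 : (1/3 : ℝ) ^ b = 1 / 3 ^ b := by rw [one_div_pow]
    rw [h2] at h1
    have : 10 / (3:ℝ) ^ b = 10 * (1 / 3 ^ b) := by ring
    rw [this]; linarith
  have ha : 2 ≤ 3 * b := by omega
  obtain ⟨u1, u2, h1, h1', h2, h2', hm1, hm2, hreal, hsum⟩ := sum_est b hb3
  set k := 3 ^ (3 * b) with hk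
  have hk9 : 9 ≤ k := (pow3_facts (3 * b) ha).2.1
  -- a root
  have hPm : (expand ℤ 2 (Q ℤ k)).Monic := (Q_monic k (by omega)).expand (by norm_num)
  have hPdeg : (expand ℤ 2 (Q ℤ k)).natDegree = 2 * (k + 1) := by
    rw [natDegree_expand, Q_natDegree k (by omega)]; ring
  set s1 : ℝ := Real.sqrt u1 with hs1
  set s2 : ℝ := Real.sqrt u2 with hs2
  have hs1sq : s1 ^ 2 = u1 := Real.sq_sqrt h1.le
  have hs2sq : s2 ^ 2 = u2 := Real.sq_sqrt (by linarith)
  have hs1p : 0 < s1 := Real.sqrt_pos.mpr h1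
  have hs2p : 0 < s2 := Real.sqrt_pos.mpr (by linarith)
  have hs12 : s1 < s2 := Real.sqrt_lt_sqrt h1.le (by linarith)
  set α : ℂ := (s1 : ℂ) with hα
  have hαroot : aeval α (expand ℤ 2 (Q ℤ k)) = 0 := by
    rw [aeval_expand_Q, hα]
    have : ((s1 : ℂ)) ^ 2 = (u1 : ℂ) := by rw [← hs1sq]; push_cast; rfl
    rw [this]
    exact (mem_RQ k (by omega) _).mp hm1
  have hmin := minpoly_eq (3 * b) ha α hαroot
  rw [← hk] at hmin
  have hint : IsIntegral ℤ α := ⟨_, hPm, hαroot⟩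
  have hdeg : (minpoly ℚ α).natDegree = 2 * (k + 1) := by
    rw [minpoly.isIntegrallyClosed_eq_field_fractions' ℚ hint, hmin]
    rw [hPm.natDegree_map, hPdeg]
  have hconj : ∀ z : ℂ, z ∈ conjugates α ↔ z ^ 2 ∈ RQ k := by
    intro z
    rw [mem_conj α z hint, hmin, aeval_expand_Q, mem_RQ k (by omega)]
  -- real conjugates
  have hrealc : realConjugates α = {(s1 : ℂ), ((-s1 : ℝ) : ℂ), (s2 : ℂ), ((-s2 : ℝ) : ℂ)} := by
    ext z
    simp only [realConjugates, mem_filter, mem_insert, mem_singleton]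
    rw [hconj]
    constructor
    · rintro ⟨hz, hz0⟩
      have hzr : z = (z.re : ℂ) := Complex.ext rfl (by simp [hz0])
      rw [hzr] at hz
      have e : ((z.re : ℂ)) ^ 2 = ((z.re ^ 2 : ℝ) : ℂ) := by push_cast; rfl
      rw [e] at hz
      rcases hreal _ (sq_nonneg _) hz with h | h
      · rw [← hs1sq] at h
        rcases sq_eq_sq_iff_eq_or_eq_neg.mp h with h | h
        · left; rw [hzr, h]
        · right; left; rw [hzr, h]
      · rw [← hs2sq] at h
        rcases sq_eq_sq_iff_eq_or_eq_neg.mp h with h | h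
        · right; right; left; rw [hzr, h]
        · right; right; right; rw [hzr, h]
    · have e1 : ((s1 : ℂ)) ^ 2 = (u1 : ℂ) := by rw [← hs1sq]; push_cast; rfl
      have e2 : ((s2 : ℂ)) ^ 2 = (u2 : ℂ) := by rw [← hs2sq]; push_cast; rfl
      rintro (rfl | rfl | rfl | rfl)
      · exact ⟨by rw [e1]; exact hm1, by simp⟩
      · exact ⟨by push_cast; rw [neg_sq, e1]; exact hm1, by simp⟩
      · exact ⟨by rw [e2]; exact hm2, by simp⟩
      · exact ⟨by push_cast; rw [neg_sq, e2]; exact hm2, by simp⟩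
  have n12 : (s1 : ℂ) ∉ ({((-s1 : ℝ) : ℂ), (s2 : ℂ), ((-s2 : ℝ) : ℂ)} : Finset ℂ) := by
    simp only [mem_insert, mem_singleton, Complex.ofReal_inj, not_or]
    refine ⟨by linarith, by linarith, by linarith⟩
  have n23 : ((-s1 : ℝ) : ℂ) ∉ ({(s2 : ℂ), ((-s2 : ℝ) : ℂ)} : Finset ℂ) := by
    simp only [mem_insert, mem_singleton, Complex.ofReal_inj, not_or]
    refine ⟨by linarith, by linarith⟩
  have n34 : (s2 : ℂ) ∉ ({((-s2 : ℝ) : ℂ)} : Finset ℂ) := by
    simp only [mem_singleton, Complex.ofReal_inj]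
    linarith
  -- upper conjugates
  have hup : ∑ z ∈ upperConjugates α, ‖z‖ ^ 2 = ∑ z ∈ RQ k \ {(u1 : ℂ), (u2 : ℂ)}, ‖z‖ := by
    apply sum_bij (fun z _ => z ^ 2)
    · intro z hz
      simp only [upperConjugates, mem_filter] at hz
      rw [hconj] at hz
      rw [mem_sdiff]
      refine ⟨hz.1, ?_⟩
      simp only [mem_insert, mem_singleton, not_or]
      have hne : ∀ u s : ℝ, s ^ 2 = u → z ^ 2 ≠ (u : ℂ) := by
        intro u s hs h
        have h3 : z ^ 2 = (s : ℂ) ^ 2 := by rw [h, ← hs]; push_cast; rfl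
        rcases sq_eq_sq_iff_eq_or_eq_neg.mp h3 with h4 | h4
        · have := hz.2; rw [h4] at this; simp at this
        · have := hz.2; rw [h4] at this; simp at this
      exact ⟨hne u1 s1 hs1sq, hne u2 s2 hs2sq⟩
    · intro z hz w hw h
      simp only [upperConjugates, mem_filter] at hz hw
      rcases sq_eq_sq_iff_eq_or_eq_neg.mp h with h4 | h4
      · exact h4
      · have h5 := hz.2
        rw [h4, Complex.neg_im] at h5
        linarith [hw.2]
    · intro w hw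
      rw [mem_sdiff] at hw
      obtain ⟨z, hz⟩ := IsAlgClosed.exists_pow_nat_eq w (n := 2) (by norm_num)
      have hzim : z.im ≠ 0 := by
        intro h0
        have hzr : z = (z.re : ℂ) := Complex.ext rfl (by simp [h0])
        have hw2 : w = ((z.re ^ 2 : ℝ) : ℂ) := by rw [← hz, hzr]; push_cast; simp
        have := hreal (z.re ^ 2) (sq_nonneg _) (by rw [← hw2]; exact hw.1)
        apply hw.2
        simp only [mem_insert, mem_singleton]
        rcases this with h | h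
        · left; rw [hw2, h]
        · right; rw [hw2, h]
      rcases lt_or_gt_of_ne hzim with hneg | hpos
      · refine ⟨-z, ?_, by rw [neg_sq, hz]⟩
        simp only [upperConjugates, mem_filter]
        rw [hconj, neg_sq, hz, Complex.neg_im]
        exact ⟨hw.1, by linarith⟩
      · refine ⟨z, ?_, hz⟩
        simp only [upperConjugates, mem_filter]
        rw [hconj, hz]
        exact ⟨hw.1, hpos⟩
    · intro z _
      rw [norm_pow]
  have hreals : ∑ z ∈ realConjugates α, z.re ^ 2 = 2 * (u1 + u2) := by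
    rw [hrealc, sum_insert n12, sum_insert n23, sum_insert n34, sum_singleton]
    simp only [Complex.ofReal_re, neg_sq]
    rw [hs1sq, hs2sq]; ring
  refine ⟨α, ?_, hint, ?_, ?_, ?_⟩
  · rw [hα]
    exact_mod_cast hs1p.ne'
  · rw [hdeg]; omega
  · rw [hrealc, card_insert_of_notMem n12, card_insert_of_notMem n23, card_insert_of_notMem n34,
      card_singleton]
  · have hsize : sqSize α ≤ (3 ^ (3 * b) : ℝ) + 1 + 2 * Real.log 2 + 10 / (3:ℝ) ^ b := by
      unfold sqSize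
      rw [hup, hreals]; linarith
    have hkR : (k:ℝ) = 3 ^ (3 * b) := by rw [hk]; push_cast; rfl
    have hbound : (k:ℝ) + 1 + 2 * Real.log 2 ≤
        ((minpoly ℚ α).natDegree : ℝ) * (2:ℝ) ^ (((4:ℕ):ℝ) / (minpoly ℚ α).natDegree - 1) := by
      rw [hdeg]
      have hk0 : (0:ℝ) < (k:ℝ) + 1 := by positivity
      have e1 : (2:ℝ) ^ (((4:ℕ):ℝ) / ((2 * (k + 1) : ℕ) : ℝ) - 1) =
          (1/2) * Real.exp (Real.log 2 * (2 / ((k:ℝ) + 1))) := by
        rw [Real.rpow_sub (by norm_num), Real.rpow_one, Real.rpow_def_of_pos (by norm_num)]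
        have : ((4:ℕ):ℝ) / ((2 * (k + 1) : ℕ) : ℝ) = 2 / ((k:ℝ) + 1) := by
          push_cast; field_simp; norm_num
        rw [this]; ring
      rw [e1]
      have e2 := Real.add_one_le_exp (Real.log 2 * (2 / ((k:ℝ) + 1)))
      push_cast
      have e3 : 2 * ((k:ℝ) + 1) * (1 / 2 * Real.exp (Real.log 2 * (2 / ((k:ℝ) + 1)))) =
          ((k:ℝ) + 1) * Real.exp (Real.log 2 * (2 / ((k:ℝ) + 1))) := by ring
      rw [e3]
      have e4 : ((k:ℝ) + 1) * (Real.log 2 * (2 / ((k:ℝ) + 1)) + 1) = (k:ℝ) + 1 + 2 * Real.log 2 := by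
        field_simp; ring
      rw [← e4]
      exact mul_le_mul_of_nonneg_left e2 hk0.le
    rw [← hkR] at hsize
    linarith

/-- **Answer to Q1: yes**, `s = 4` works. -/
theorem result : SharpFor 4 ∧ ∃ s : ℕ, 1 ≤ s ∧ s ≠ 2 ∧ SharpFor s :=
  ⟨sharp_four, 4, by norm_num, by norm_num, sharp_four⟩

end Pool.Agent.Results.MP_bf7c2b_nt.SharpForFour
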